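import Pool.Agent.Y166.DP.Stm

/-! Irreducible subsets, components, and the monotonicity of the dimension. -/

set_option autoImplicit false
set_option linter.unusedSectionVars false

namespace Pool.Agent.Y198.DP2

open MvPolynomial Pool.Agent.Y166.DP

theorem van_anti {k σ : Type} [Field k] {M N : Set (σ → k)} (h : M ⊆ N) : van N ≤ van M :=
  fun _ hF c hc => hF c (h hc)

theorem stmComp : StmComp := by
  intro k σ _ _ W Z hZW hZ
  have key := zorn_subset_nonempty {M : Set (σ → k) | M ⊆ W ∧ IsIrr M ∧ Z ⊆ M} ?_ Z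
    ⟨hZW, hZ, subset_rfl⟩
  · obtain ⟨M, hZM, hM⟩ := key
    refine ⟨M, ⟨hM.prop.1, hM.prop.2.1, fun M' h1 h2 h3 => ?_⟩, hZM⟩
    exact (hM.eq_of_subset ⟨h1, h2, hM.prop.2.2.trans h3⟩ h3).symm
  · intro c hc hch hne
    refine ⟨⋃₀ c, ⟨?_, ?_, ?_⟩, fun s hs => Set.subset_sUnion_of_mem hs⟩
    · exact Set.sUnion_subset fun M hM => (hc hM).1
    · obtain ⟨M₀, hM₀⟩ := hne
      unfold IsIrr
      refine ⟨?_, ?_⟩
      · intro htop
        have h1 : (1 : MvPolynomial σ k) ∈ van (⋃₀ c) := by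
          rw [htop]
          trivial
        have h2 := van_anti (Set.subset_sUnion_of_mem hM₀) h1
        exact (hc hM₀).2.1.ne_top ((Ideal.eq_top_iff_one _).2 h2)
      · intro F G hFG
        by_contra hcon
        rw [not_or] at hcon
        obtain ⟨hF, hG⟩ := hcon
        have hF' : ∃ a ∈ ⋃₀ c, eval a F ≠ 0 := by
          by_contra h
          push Not at h
          exact hF h
        have hG' : ∃ a ∈ ⋃₀ c, eval a G ≠ 0 := by
          by_contra h
          push Not at h
          exact hG h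
        obtain ⟨a, ⟨M₁, hM₁, ha⟩, haF⟩ := hF'
        obtain ⟨b, ⟨M₂, hM₂, hb⟩, hbG⟩ := hG'
        obtain ⟨M, hM, h1, h2⟩ : ∃ M ∈ c, M₁ ⊆ M ∧ M₂ ⊆ M := by
          rcases hch.total hM₁ hM₂ with h | h
          · exact ⟨M₂, hM₂, h, subset_rfl⟩
          · exact ⟨M₁, hM₁, subset_rfl, h⟩
        have h3 : F * G ∈ van M := van_anti (Set.subset_sUnion_of_mem hM) hFG
        rcases (hc hM).2.1.mem_or_mem h3 with h | h
        · exact haF (h a (h1 ha))
        · exact hbG (h b (h2 hb))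
    · obtain ⟨M₀, hM₀⟩ := hne
      exact (hc hM₀).2.2.trans (Set.subset_sUnion_of_mem hM₀)

theorem stmDim : StmDim := by
  intro k σ _ _ Z M hZM hZ hM
  unfold IsIrr at hZ hM
  have := hZ
  have := hM
  unfold dimA
  have h1 : Algebra.trdeg k (MvPolynomial σ k ⧸ van Z) ≤
      Algebra.trdeg k (MvPolynomial σ k ⧸ van M) :=
    trdeg_le_of_surjective (Ideal.Quotient.factorₐ k (van_anti hZM))
      (Ideal.Quotient.factor_surjective (van_anti hZM))
  have : Algebra.FiniteType k (MvPolynomial σ k ⧸ van M) :=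
    Algebra.FiniteType.of_surjective (Ideal.Quotient.mkₐ k (van M))
      (Ideal.Quotient.mkₐ_surjective k _)
  have h2 : Algebra.trdeg k (MvPolynomial σ k ⧸ van M) < Cardinal.aleph0 :=
    trdeg_lt_aleph0_of_finiteType
  exact Cardinal.toNat_le_toNat h1 h2

end Pool.Agent.Y198.DP2
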