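import Pool.Agent.Y198.DP2.Surf

/-! The equation of the cone is given by polynomials. -/

set_option autoImplicit false
set_option linter.unusedSectionVars false

namespace Pool.Agent.Y198.DP2

open Polynomial Pool.Agent.Y166.DP

/-- The cubic polynomial. -/
noncomputable def cubP {A : Type} [CommRing A] (lam : A) : A[X] := X * (X - 1) * (X - C lam)

theorem cubP_monic {A : Type} [CommRing A] [Nontrivial A] (lam : A) :
    (cubP lam).Monic ∧ (cubP lam).natDegree = 3 := by
  have h1 : (X - 1 : A[X]).Monic := by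
    rw [← C_1]
    exact monic_X_sub_C 1
  have h1' : (X - 1 : A[X]).natDegree = 1 := by
    rw [← C_1]
    exact natDegree_X_sub_C 1
  have h2 : (X * (X - 1) : A[X]).Monic := monic_X.mul h1
  have h3 : (X - C lam : A[X]).Monic := monic_X_sub_C lam
  refine ⟨h2.mul h3, ?_⟩
  unfold cubP
  rw [h2.natDegree_mul h3, monic_X.natDegree_mul h1, natDegree_X, h1', natDegree_X_sub_C]

/-- `y` is not a rational function of `x`. -/
theorem indep {k K : Type} [Field k] [Field K] [Algebra k K] {lam : k} {x y : K}
    (h : Ell k K lam x y) (A B : k[X]) : aeval x A + aeval x B * y = 0 ↔ A = 0 ∧ B = 0 := by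
  constructor
  · intro he
    have hinj : Function.Injective (aeval x : k[X] →ₐ[k] K) :=
      transcendental_iff_injective.1 h.tr
    have hB : B = 0 := by
      by_contra hB
      have h1 : aeval x (A ^ 2) = aeval x (B ^ 2 * cubP lam) := by
        have h2 : aeval x A = - (aeval x B * y) := eq_neg_of_add_eq_zero_left he
        rw [map_pow, h2, map_mul, map_pow, neg_sq, mul_pow, h.eqn]
        simp [cubP]
      have h2 := hinj h1
      have h3 := congrArg natDegree h2
      rw [natDegree_pow, natDegree_mul (pow_ne_zero 2 hB) (cubP_monic lam).1.ne_zero,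
        natDegree_pow, (cubP_monic lam).2] at h3
      omega
    refine ⟨?_, hB⟩
    rw [hB, map_zero, zero_mul, add_zero] at he
    exact (map_eq_zero_iff _ hinj).1 he
  · rintro ⟨rfl, rfl⟩
    simp

section
variable {L K : Type} [CommRing L] [Field K]

/-- The generic function with poles at infinity. -/
noncomputable def fsumU {N : ℕ} (v : Fin N → L) : L[X][X] :=
  ∑ j, C (C (v j)) * fn (C X : L[X][X]) X j

/-- The generic equation. -/
noncomputable def thetaU {N N' : ℕ} (v : Fin 3 → Fin N → L) (w : Fin N' → L) : L[X][X] :=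
  fsumU w ^ 2 - C X * (fsumU (v 0) ^ 4 + fsumU (v 1) ^ 4 + fsumU (v 2) ^ 4)

/-- The evaluation. -/
noncomputable def ev (e : L →+* K) (x y : K) : L[X][X] →+* K :=
  eval₂RingHom (eval₂RingHom e x) y

theorem ev_X (e : L →+* K) (x y : K) : ev e x y X = y := by simp [ev]

theorem ev_C (e : L →+* K) (x y : K) (p : L[X]) : ev e x y (C p) = eval₂ e x p := by simp [ev]

theorem ev_fsumU (e : L →+* K) (x y : K) {N : ℕ} (v : Fin N → L) :
    ev e x y (fsumU v) = ∑ j, e (v j) * fn x y j := by
  unfold fsumU
  rw [map_sum]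
  refine Finset.sum_congr rfl fun j _ => ?_
  rw [map_mul, map_fn, ev_C, ev_C, ev_X, eval₂_C, eval₂_X]

theorem ev_thetaU (e : L →+* K) (x y : K) {N N' : ℕ} (v : Fin 3 → Fin N → L) (w : Fin N' → L) :
    ev e x y (thetaU v w) = (∑ j, e (w j) * fn x y j) ^ 2 -
      x * quart (fun i => ∑ j, e (v i j) * fn x y j) := by
  unfold thetaU quart
  rw [map_sub, map_mul, map_add, map_add, map_pow, map_pow, map_pow, map_pow, ev_fsumU, ev_fsumU,
    ev_fsumU, ev_fsumU, ev_C, eval₂_X]

end

theorem stmEqn : StmEqn := by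
  intro k₀ _ lam d
  classical
  let v : Fin 3 → Fin (d + 1) → MvPolynomial (Idx d) k₀ := fun i j => MvPolynomial.X (.inl (i, j))
  let w : Fin (2 * d + 3) → MvPolynomial (Idx d) k₀ := fun j => MvPolynomial.X (.inr j)
  let q : (MvPolynomial (Idx d) k₀)[X][X] := X ^ 2 - C (cubP (MvPolynomial.C lam))
  have hq : q.Monic := monic_X_pow_sub_C _ two_ne_zero
  have hq2 : q.natDegree = 2 := natDegree_X_pow_sub_C
  let R := thetaU v w %ₘ q
  have hR : R = C (R.coeff 1) * X + C (R.coeff 0) := by
    have h1 : R.natDegree < 2 := by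
      rw [← hq2]
      exact natDegree_modByMonic_lt _ hq (by
        intro h
        rw [h, natDegree_one] at hq2
        omega)
    have h2 : R.degree ≤ 1 := natDegree_le_iff_degree_le.1 (Nat.le_of_lt_succ h1)
    exact eq_X_add_C_of_degree_le_one h2
  refine ⟨{F | ∃ n, F = (R.coeff 0).coeff n ∨ F = (R.coeff 1).coeff n}, ?_⟩
  intro k K _ _ _ _ x y hE c
  let e0 : MvPolynomial (Idx d) k₀ →+* k := (MvPolynomial.aeval c).toRingHom
  let e : MvPolynomial (Idx d) k₀ →+* K := (algebraMap k K).comp e0
  have h0 : ev e x y (thetaU v w) = xh x y c ^ 2 - x * quart (gv x y c) := by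
    rw [ev_thetaU]
    have h01 : ∀ s, e (MvPolynomial.X s) = algebraMap k K (c s) := by
      intro s
      simp [e, e0]
    simp only [v, w, h01]
    rfl
  have h1 : ev e x y (thetaU v w) = ev e x y R := by
    have h2 := modByMonic_add_div (thetaU v w) q
    have h3 : ev e x y q = 0 := by
      have e2 : eval₂ e x (cubP (MvPolynomial.C lam)) =
          x * (x - 1) * (x - algebraMap k K (algebraMap k₀ k lam)) := by
        unfold cubP
        rw [eval₂_mul, eval₂_mul, eval₂_sub, eval₂_sub, eval₂_X, eval₂_one, eval₂_C]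
        simp [e, e0]
      change ev e x y (X ^ 2 - C (cubP (MvPolynomial.C lam))) = 0
      rw [map_sub, map_pow, ev_X, ev_C, e2, hE.eqn, sub_self]
    conv_lhs => rw [← h2]
    rw [map_add, map_mul, h3, zero_mul, add_zero]
  have h2 : ev e x y R = aeval x ((R.coeff 0).map e0) + aeval x ((R.coeff 1).map e0) * y := by
    conv_lhs => rw [hR]
    rw [map_add, map_mul, ev_C, ev_C, ev_X, aeval_def, aeval_def, eval₂_map, eval₂_map, add_comm]
  rw [← sub_eq_zero, ← h0, h1, h2, indep hE]
  constructor
  · rintro ⟨hA, hB⟩ F ⟨n, rfl | rfl⟩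
    · have := congrArg (fun p => coeff p n) hA
      rw [coeff_map] at this
      exact this
    · have := congrArg (fun p => coeff p n) hB
      rw [coeff_map] at this
      exact this
  · intro h
    constructor
    · ext n
      rw [coeff_map, coeff_zero]
      exact h _ ⟨n, Or.inl rfl⟩
    · ext n
      rw [coeff_map, coeff_zero]
      exact h _ ⟨n, Or.inr rfl⟩

end Pool.Agent.Y198.DP2
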