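import Pool.Agent.Y166.DP.Stm

/-! The irreducible set of the specializations of a point over a larger field. -/

set_option autoImplicit false
set_option linter.unusedSectionVars false

namespace Pool.Agent.Y198.DP2

open MvPolynomial Pool.Agent.Y166.DP

theorem spec_mem {k₀ k σ : Type} [Field k₀] [IsAlgClosed k₀] [Field k] [Algebra k₀ k] [Finite σ]
    (ξ : σ → k) (μ : MvPolynomial σ k₀) (hμ : aeval ξ μ ≠ 0) (F : MvPolynomial σ k₀)
    (hF : aeval ξ F ≠ 0) :
    ∃ z : σ → k₀, (∀ G : MvPolynomial σ k₀, aeval ξ G = 0 → eval z G = 0) ∧ eval z μ ≠ 0 ∧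
      eval z F ≠ 0 := by
  have hP : (RingHom.ker (aeval ξ : MvPolynomial σ k₀ →ₐ[k₀] k)).IsPrime :=
    RingHom.ker_isPrime _
  have h1 : F * μ ∉ (RingHom.ker (aeval ξ : MvPolynomial σ k₀ →ₐ[k₀] k)) := by
    rw [RingHom.mem_ker, map_mul]
    exact mul_ne_zero hF hμ
  have h2 := vanishingIdeal_zeroLocus_eq_radical (K := k₀)
    (RingHom.ker (aeval ξ : MvPolynomial σ k₀ →ₐ[k₀] k))
  rw [hP.radical] at h2
  rw [← h2, mem_vanishingIdeal_iff] at h1
  push Not at h1
  obtain ⟨z, hz, h3⟩ := h1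
  rw [mem_zeroLocus_iff] at hz
  rw [map_mul] at h3
  refine ⟨z, fun G hG => ?_, ?_, ?_⟩
  · have := hz G ((RingHom.mem_ker).2 hG)
    simpa [aeval_eq_eval] using this
  · have := right_ne_zero_of_mul h3
    simpa [aeval_eq_eval] using this
  · have := left_ne_zero_of_mul h3
    simpa [aeval_eq_eval] using this

theorem trdeg_closure {k₀ A k ι : Type} [Field k₀] [CommRing A] [IsDomain A] [Field k]
    [Algebra k₀ A] [Algebra A k] [Algebra k₀ k] [IsScalarTower k₀ A k] [FaithfulSMul A k]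
    (z : ι → k) (hz : AlgebraicIndependent k₀ z) (h : ∀ i, IsAlgebraic A (z i)) :
    Cardinal.mk ι ≤ Algebra.trdeg k₀ A := by
  let C : Subalgebra A k := Subalgebra.algebraicClosure A k
  let w : ι → C := fun i => ⟨z i, h i⟩
  have hw : AlgebraicIndependent k₀ w :=
    ((C.val.restrictScalars k₀).algebraicIndependent_iff Subtype.val_injective).1 hz
  have h1 : Cardinal.mk ι ≤ Algebra.trdeg k₀ C := hw.cardinalMk_le_trdeg
  have h2 : Algebra.trdeg k₀ A + Algebra.trdeg A C = Algebra.trdeg k₀ C := trdeg_add_eq _ _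
  have h3 : Algebra.trdeg A C = 0 := trdeg_eq_zero
  rw [h3, add_zero] at h2
  rw [h2]
  exact h1

theorem trdeg_range {k₀ k σ : Type} [Field k₀] [Field k] [Algebra k₀ k]
    (ξ : σ → k) (ι : Type) (z : ι → k) (hz : AlgebraicIndependent k₀ z)
    (h : ∀ i, IsAlgebraic (IntermediateField.adjoin k₀ (Set.range ξ)) (z i)) :
    Cardinal.mk ι ≤ Algebra.trdeg k₀ (Algebra.adjoin k₀ (Set.range ξ)) :=
  trdeg_closure z hz fun i => IntermediateField.isAlgebraic_adjoin_iff.1 (h i)

theorem stmSpec : StmSpec := by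
  intro k₀ k σ _ _ _ _ _ ξ μ hμ Z hZ
  have hvan : ∀ F : MvPolynomial σ k₀, F ∈ van Z ↔ aeval ξ F = 0 := by
    intro F
    constructor
    · intro hF
      by_contra hne
      obtain ⟨z, h1, h2, h3⟩ := spec_mem ξ μ hμ F hne
      exact h3 (hF z (by rw [hZ]; exact ⟨h1, h2⟩))
    · intro hF z hz
      rw [hZ] at hz
      exact hz.1 F hF
  have hker : van Z = RingHom.ker (aeval ξ : MvPolynomial σ k₀ →ₐ[k₀] k) := by
    ext F
    rw [RingHom.mem_ker]
    exact hvan F
  refine ⟨hvan, ?_, ?_⟩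
  · unfold IsIrr
    rw [hker]
    exact RingHom.ker_isPrime _
  · intro ι _ z hz halg
    have h1 := trdeg_range ξ ι z hz halg
    have h2 : Algebra.trdeg k₀ (MvPolynomial σ k₀ ⧸ van Z) =
        Algebra.trdeg k₀ (Algebra.adjoin k₀ (Set.range ξ)) := by
      rw [hker, Algebra.adjoin_range_eq_range_aeval]
      exact (Ideal.quotientKerEquivRange _).trdeg_eq
    unfold dimA
    rw [h2]
    have h3 : Algebra.trdeg k₀ (Algebra.adjoin k₀ (Set.range ξ)) < Cardinal.aleph0 := by
      have : Algebra.FiniteType k₀ (Algebra.adjoin k₀ (Set.range ξ)) :=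
        Algebra.FiniteType.adjoin_of_finite (Set.finite_range ξ)
      exact trdeg_lt_aleph0_of_finiteType
    have h4 := Cardinal.toNat_le_toNat h1 h3
    simpa using h4

end Pool.Agent.Y198.DP2
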