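import Pool.Agent.Y166.DP.Stm

/-! Surfaces that contain the specializations of a point. -/

set_option autoImplicit false
set_option linter.unusedSectionVars false

namespace Pool.Agent.Y198.DP2

open MvPolynomial Pool.Agent.Y166.DP

/-- The coefficients of a polynomial, with respect to a basis of the span of its coefficients. -/
theorem decomp {k₀ K₀ σ : Type} [Field k₀] [Field K₀] [Algebra k₀ K₀] (Θ : MvPolynomial σ K₀) :
    ∃ (n : ℕ) (b : Fin n → K₀) (P : Fin n → MvPolynomial σ k₀), LinearIndependent k₀ b ∧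
      Θ = ∑ l, C (b l) * map (algebraMap k₀ K₀) (P l) := by
  classical
  let S : Submodule k₀ K₀ := Submodule.span k₀ ((fun m => coeff m Θ) '' (Θ.support : Set (σ →₀ ℕ)))
  have hfin : Module.Finite k₀ S :=
    Module.Finite.iff_fg.2 (Submodule.fg_span (Θ.support.finite_toSet.image _))
  have hmem : ∀ m, coeff m Θ ∈ S := by
    intro m
    by_cases h : m ∈ Θ.support
    · exact Submodule.subset_span ⟨m, h, rfl⟩
    · rw [notMem_support_iff.1 h]
      exact S.zero_mem
  let b := Module.finBasis k₀ S
  refine ⟨_, fun l => (b l : K₀),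
    fun l => ∑ m ∈ Θ.support, monomial m (b.repr ⟨coeff m Θ, hmem m⟩ l), ?_, ?_⟩
  · exact b.linearIndependent.map' S.subtype (Submodule.ker_subtype S)
  · ext m
    rw [coeff_sum]
    simp only [coeff_C_mul, coeff_map, coeff_sum, coeff_monomial]
    simp only [Finset.sum_ite_eq']
    have key : ((∑ l, (b.repr ⟨coeff m Θ, hmem m⟩ l) • b l : S) : K₀) = coeff m Θ := by
      rw [b.sum_repr]
    rw [Submodule.coe_sum] at key
    by_cases h : m ∈ Θ.support
    · simp only [if_pos h]
      refine key.symm.trans ?_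
      refine Finset.sum_congr rfl fun l _ => ?_
      rw [Submodule.coe_smul, Algebra.smul_def, mul_comm]
    · simp only [if_neg h, map_zero, mul_zero, Finset.sum_const_zero]
      exact notMem_support_iff.1 h

theorem map_fn {A B : Type} [CommRing A] [CommRing B] (f : A →+* B) (x y : A) (j : ℕ) :
    f (fn x y j) = fn (f x) (f y) j := by
  unfold fn
  split_ifs <;> simp

theorem eval_map_comp {A B σ : Type} [CommRing A] [CommRing B] (f : A →+* B) (v : σ → A)
    (p : MvPolynomial σ A) : eval (fun s => f (v s)) (map f p) = f (eval v p) := by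
  induction p using MvPolynomial.induction_on with
  | C a => simp
  | add p q hp hq => simp [hp, hq]
  | mul_X p j hp => simp [hp]

theorem eval_aeval {A B σ τ : Type} [CommRing A] [CommRing B] (f : A →+* B)
    (G : σ → MvPolynomial τ A) (w : τ → B) (p : MvPolynomial σ A) :
    eval w (map f (aeval G p)) = eval (fun i => eval w (map f (G i))) (map f p) := by
  induction p using MvPolynomial.induction_on with
  | C a => simp [algebraMap_eq]
  | add p q hp hq => simp only [map_add, hp, hq]
  | mul_X p j hp => simp only [map_mul, hp, aeval_X, map_X, eval_X]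

theorem stmSurf : StmSurf := by
  intro k₀ K₀ k K _ _ _ _ _ _ _ x₀ y₀ φ d hφ ξ Z hZ Ψ hΨ
  classical
  let G : Fin 3 → MvPolynomial (Idx d) K₀ := fun i =>
    ∑ j : Fin (d + 1), X (Sum.inl (i, j)) * C (fn x₀ y₀ j)
  let Θ : MvPolynomial (Idx d) K₀ := aeval G Ψ
  obtain ⟨n, b, P, hb, hΘ⟩ := decomp (k₀ := k₀) Θ
  have h1 : ∀ c : Idx d → k₀, eval (fun s => algebraMap k₀ K₀ (c s)) Θ = eval (gv x₀ y₀ c) Ψ := by
    intro c
    have e := eval_aeval (RingHom.id K₀) G (fun s => algebraMap k₀ K₀ (c s)) Ψ
    rw [map_id, map_id] at e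
    change eval _ (aeval G Ψ) = _
    rw [e]
    congr 2
    funext i
    simp [G, gv, fsum]
  have hP : ∀ l, P l ∈ van Z := by
    intro l c hc
    have h2 : ∑ l, eval c (P l) • b l = 0 := by
      have h3 := hΨ c hc
      rw [← h1, hΘ] at h3
      rw [map_sum] at h3
      rw [← h3]
      refine Finset.sum_congr rfl fun l _ => ?_
      rw [map_mul, eval_C, eval_map_comp, Algebra.smul_def, mul_comm]
    exact Fintype.linearIndependent_iff.1 hb _ h2 l
  have h2 : eval (fun s => algebraMap k K (ξ s)) (map φ Θ) =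
      eval (gv (φ x₀) (φ y₀) ξ) (map φ Ψ) := by
    rw [show Θ = aeval G Ψ from rfl, eval_aeval φ]
    congr 2
    funext i
    simp [G, gv, fsum, map_fn]
  rw [← h2, hΘ, map_sum, map_sum]
  refine Finset.sum_eq_zero fun l _ => ?_
  rw [map_mul, map_mul]
  have h3 : ∀ p : MvPolynomial (Idx d) k₀, eval (fun s => algebraMap k K (ξ s))
      (map φ (map (algebraMap k₀ K₀) p)) = algebraMap k K (aeval ξ p) := by
    intro p
    induction p using MvPolynomial.induction_on with
    | C a => simp [hφ]
    | add p q hp hq => simp only [map_add, hp, hq]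
    | mul_X p j hp => simp only [map_mul, hp, aeval_X, map_X, eval_X]
  rw [h3, hZ _ (hP l), map_zero, mul_zero]

theorem deriv_eval {K₀ K : Type} [Field K₀] [Field K] (φ : K₀ →+* K) (D : Derivation ℤ K K)
    (hD : ∀ a, D (φ a) = 0) (g : Fin 3 → K) (Ψ : MvPolynomial (Fin 3) K₀) :
    D (eval g (map φ Ψ)) = ∑ i, D (g i) * eval g (map φ (pderiv i Ψ)) := by
  classical
  induction Ψ using MvPolynomial.induction_on with
  | C a => simp [hD]
  | add p q hp hq =>
    simp only [map_add, hp, hq, mul_add, Finset.sum_add_distrib]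
  | mul_X p j hp =>
    rw [map_mul, map_mul, map_X, eval_X, Derivation.leibniz, hp, smul_eq_mul, smul_eq_mul]
    have h1 : ∀ i, D (g i) * eval g (map φ (pderiv i (p * X j))) =
        (if i = j then D (g i) * eval g (map φ p) else 0) +
          g j * (D (g i) * eval g (map φ (pderiv i p))) := by
      intro i
      rw [Derivation.leibniz, pderiv_X, smul_eq_mul, smul_eq_mul]
      by_cases hij : i = j
      · subst hij
        simp
        ring
      · rw [Pi.single_eq_of_ne (Ne.symm hij)]
        simp [hij]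
        ring
    rw [Finset.sum_congr rfl fun i _ => h1 i, Finset.sum_add_distrib, ← Finset.mul_sum]
    simp
    ring

theorem stmNoSurf : StmNoSurf := by
  intro K₀ K _ _ _ φ D₁ D₂ h1 h2 g hg n
  classical
  have hchar : CharZero K₀ := by
    refine ⟨fun a b hab => ?_⟩
    have := congrArg φ hab
    simpa using this
  induction n with
  | zero =>
    intro Ψ hΨ hne h0
    obtain ⟨a, ha⟩ : ∃ a, Ψ = C a := ⟨_, totalDegree_eq_zero_iff_eq_C.1 (hΨ.totalDegree hne)⟩
    rw [ha, map_C, eval_C] at h0
    apply hne
    rw [ha, (map_eq_zero φ).1 h0, C_0]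
  | succ n ih =>
    intro Ψ hΨ hne h0
    let v : Fin 3 → K := fun i => eval g (map φ (pderiv i Ψ))
    have e0 : ∑ i, g i * v i = 0 := by
      have h3 := congrArg (fun p => eval g (map φ p)) hΨ.sum_X_mul_pderiv
      simp only [map_sum, map_mul, map_X, eval_X, map_nsmul] at h3
      rw [h0, smul_zero] at h3
      exact h3
    have e1 : ∑ i, D₁ (g i) * v i = 0 := by
      rw [← deriv_eval φ D₁ h1, h0, map_zero]
    have e2 : ∑ i, D₂ (g i) * v i = 0 := by
      rw [← deriv_eval φ D₂ h2, h0, map_zero]
    have hv : v = 0 := by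
      apply Matrix.eq_zero_of_mulVec_eq_zero hg
      funext r
      fin_cases r
      · simpa [Matrix.mulVec, dotProduct] using e0
      · simpa [Matrix.mulVec, dotProduct] using e1
      · simpa [Matrix.mulVec, dotProduct] using e2
    have hp : ∀ i, pderiv i Ψ = 0 := by
      intro i
      by_contra hne'
      exact ih (pderiv i Ψ) (by simpa using hΨ.pderiv (i := i)) hne' (congrFun hv i)
    have h3 := hΨ.sum_X_mul_pderiv
    simp only [hp, mul_zero, Finset.sum_const_zero] at h3
    have h4 : (n + 1) • Ψ ≠ 0 := by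
      rw [nsmul_eq_mul]
      refine mul_ne_zero ?_ hne
      exact_mod_cast Nat.succ_ne_zero n
    exact h4 h3.symm

end Pool.Agent.Y198.DP2
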